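import Pool.Agent.X297.LO.Stm

/-! Backup of part LIFT (helper14). -/

set_option autoImplicit false

namespace Pool.Agent.X14.LOB

open Pool.Agent.X297.LO

/-- fibre count -/
theorem card_fib {I Z : Type} [Fintype I] [Fintype Z] (P : (I × Z) × (I × Z) × (I × Z) → Prop) :
    Nat.card {p : (I × Z) × (I × Z) × (I × Z) // P p}
      = ∑ i : I × I × I, Nat.card {z : Z × Z × Z // P ((i.1, z.1), (i.2.1, z.2.1), (i.2.2, z.2.2))} := by
  classical
  rw [← Nat.card_sigma]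
  refine Nat.card_congr ?_
  exact
    { toFun := fun p => ⟨(p.1.1.1, p.1.2.1.1, p.1.2.2.1), ⟨(p.1.1.2, p.1.2.1.2, p.1.2.2.2), p.2⟩⟩
      invFun := fun q => ⟨((q.1.1, q.2.1.1), (q.1.2.1, q.2.1.2.1), (q.1.2.2, q.2.1.2.2)), q.2.2⟩
      left_inv := fun p => rfl
      right_inv := fun q => rfl }

theorem t_LIFT : S_LIFT := by
  classical
  intro hZUP hZLO N A M hN hAM ⟨m0, s, hup, x, hlo⟩
  -- bound of the quotients
  obtain ⟨E, hE⟩ : ∃ E : ℕ, ∀ i : Fin m0 × Fin m0 × Fin m0,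
      |x - (s i.1 - s i.2.1 + 2 * s i.2.2)| ≤ E := by
    refine ⟨∑ i : Fin m0 × Fin m0 × Fin m0, (x - (s i.1 - s i.2.1 + 2 * s i.2.2)).natAbs, fun i => ?_⟩
    have h := Finset.single_le_sum (f := fun i : Fin m0 × Fin m0 × Fin m0 =>
      (x - (s i.1 - s i.2.1 + 2 * s i.2.2)).natAbs) (fun _ _ => Nat.zero_le _) (Finset.mem_univ i)
    have h2 : (x - (s i.1 - s i.2.1 + 2 * s i.2.2)).natAbs ≤
      ∑ i : Fin m0 × Fin m0 × Fin m0, (x - (s i.1 - s i.2.1 + 2 * s i.2.2)).natAbs := h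
    have h3 : |x - (s i.1 - s i.2.1 + 2 * s i.2.2)|
        = ((x - (s i.1 - s i.2.1 + 2 * s i.2.2)).natAbs : ℤ) := Int.abs_eq_natAbs _
    rw [h3]
    exact_mod_cast h2
  set m : ℕ := 4 * A * (E + 2) + 1 with hm
  have hA : 0 < A := by omega
  have hne : Nonempty (Fin m0) := by
    have : 0 < Nat.card {p : Fin m0 × Fin m0 × Fin m0 // (N : ℤ) ∣ s p.1 - s p.2.1 + 2 * s p.2.2 - x} :=
      lt_of_lt_of_le hA hlo
    have h := (Nat.card_pos_iff.mp this).1
    obtain ⟨p⟩ := h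
    exact ⟨p.1.1⟩
  have hm0 : 0 < m := by omega
  have hne2 : Nonempty (Fin (2 * m)) := ⟨⟨0, by omega⟩⟩
  have hNz : (N : ℤ) ≠ 0 := by exact_mod_cast hN.ne'
  refine ⟨Fin m0 × Fin (2 * m), inferInstance, inferInstance,
    fun p => s p.1 + N * ((p.2 : ℕ) : ℤ), x + N * (2 * m), fun k => ?_⟩
  -- upper bound
  have hU : cnt (fun p : Fin m0 × Fin (2 * m) => s p.1 + N * ((p.2 : ℕ) : ℤ)) 1 (-1) 1 k ≤ M * (3 * m ^ 2) := by
    unfold cnt
    rw [card_fib]
    have h1 : ∀ i : Fin m0 × Fin m0 × Fin m0,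
        Nat.card {z : Fin (2 * m) × Fin (2 * m) × Fin (2 * m) //
          (1 : ℤ) • (s i.1 + N * ((z.1 : ℕ) : ℤ)) + (-1 : ℤ) • (s i.2.1 + N * ((z.2.1 : ℕ) : ℤ))
            + (1 : ℤ) • (s i.2.2 + N * ((z.2.2 : ℕ) : ℤ)) = k}
        ≤ if (N : ℤ) ∣ s i.1 - s i.2.1 + s i.2.2 - k then 3 * m ^ 2 else 0 := by
      intro i
      split_ifs with hd
      · obtain ⟨e, he⟩ := hd
        refine le_trans (le_of_eq ?_) (hZUP m (-e))
        refine Nat.card_congr (Equiv.subtypeEquivRight fun z => ?_)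
        simp only [smul_eq_mul]
        constructor
        · intro h
          have : (N : ℤ) * (((z.1 : ℕ) : ℤ) - ((z.2.1 : ℕ) : ℤ) + ((z.2.2 : ℕ) : ℤ)) = N * (-e) := by
            linarith
          exact mul_left_cancel₀ hNz this
        · intro h
          have : (N : ℤ) * (((z.1 : ℕ) : ℤ) - ((z.2.1 : ℕ) : ℤ) + ((z.2.2 : ℕ) : ℤ)) = N * (-e) := by
            rw [h]
          linarith
      · refine le_of_eq ?_
        rw [Nat.card_eq_zero]
        left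
        refine ⟨fun ⟨z, hz⟩ => hd ?_⟩
        simp only [smul_eq_mul] at hz
        exact ⟨-(((z.1 : ℕ) : ℤ) - ((z.2.1 : ℕ) : ℤ) + ((z.2.2 : ℕ) : ℤ)), by linarith⟩
    refine le_trans (Finset.sum_le_sum fun i _ => h1 i) ?_
    rw [← Finset.sum_filter, Finset.sum_const, smul_eq_mul]
    refine Nat.mul_le_mul_right _ ?_
    have h2 := hup k
    rw [Nat.card_eq_fintype_card, Fintype.card_subtype] at h2
    exact h2
  -- lower bound
  have hL : (A : ℤ) * (2 * (m : ℤ) ^ 2 - 4 * m * (E + 2)) ≤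
      (cnt (fun p : Fin m0 × Fin (2 * m) => s p.1 + N * ((p.2 : ℕ) : ℤ)) 1 (-1) 2 (x + N * (2 * m)) : ℤ) := by
    unfold cnt
    rw [card_fib]
    have hpos : (0 : ℤ) ≤ 2 * (m : ℤ) ^ 2 - 4 * m * (E + 2) := by
      have h1 : (m : ℤ) = 4 * A * (E + 2) + 1 := by rw [hm]; push_cast; ring
      have hA1 : (1 : ℤ) ≤ A := by exact_mod_cast hA
      have hE0 : (0 : ℤ) ≤ E := by positivity
      have h2 : (4 : ℤ) * (E + 2) ≤ m := by rw [h1]; nlinarith
      have h3 : (0 : ℤ) ≤ m := by positivity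
      nlinarith
    have h1 : ∀ i : Fin m0 × Fin m0 × Fin m0,
        (if (N : ℤ) ∣ s i.1 - s i.2.1 + 2 * s i.2.2 - x then (2 * (m : ℤ) ^ 2 - 4 * m * (E + 2)) else 0) ≤
        (Nat.card {z : Fin (2 * m) × Fin (2 * m) × Fin (2 * m) //
          (1 : ℤ) • (s i.1 + N * ((z.1 : ℕ) : ℤ)) + (-1 : ℤ) • (s i.2.1 + N * ((z.2.1 : ℕ) : ℤ))
            + (2 : ℤ) • (s i.2.2 + N * ((z.2.2 : ℕ) : ℤ)) = x + N * (2 * m)} : ℤ) := by
      intro i
      split_ifs with hd
      · obtain ⟨e, he⟩ := hd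
        have hee : |(-e)| ≤ (E : ℤ) := by
          have h3 := hE i
          have h4 : x - (s i.1 - s i.2.1 + 2 * s i.2.2) = N * (-e) := by linarith
          rw [h4, abs_mul] at h3
          have h5 : (1 : ℤ) ≤ |(N : ℤ)| := Int.one_le_abs hNz
          have h6 : (0 : ℤ) ≤ |(-e)| := abs_nonneg _
          nlinarith
        refine le_trans (hZLO m E (-e) hee) (le_of_eq ?_)
        refine congrArg (Nat.cast : ℕ → ℤ) ?_
        refine Nat.card_congr (Equiv.subtypeEquivRight fun z => ?_)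
        simp only [smul_eq_mul]
        constructor
        · intro h
          have : (N : ℤ) * (((z.1 : ℕ) : ℤ) - ((z.2.1 : ℕ) : ℤ) + 2 * ((z.2.2 : ℕ) : ℤ)) = N * (2 * m + -e) := by
            rw [h]
          linarith
        · intro h
          have : (N : ℤ) * (((z.1 : ℕ) : ℤ) - ((z.2.1 : ℕ) : ℤ) + 2 * ((z.2.2 : ℕ) : ℤ)) = N * (2 * m + -e) := by
            linarith
          exact mul_left_cancel₀ hNz this
      · positivity
    push_cast
    refine le_trans ?_ (Finset.sum_le_sum fun i _ => h1 i)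
    rw [← Finset.sum_filter, Finset.sum_const, nsmul_eq_mul]
    refine mul_le_mul_of_nonneg_right ?_ hpos
    have h2 := hlo
    rw [Nat.card_eq_fintype_card, Fintype.card_subtype] at h2
    exact_mod_cast h2
  have hfin : ((M * (3 * m ^ 2) : ℕ) : ℤ) < (A : ℤ) * (2 * (m : ℤ) ^ 2 - 4 * m * (E + 2)) := by
    have h1 : (m : ℤ) = 4 * A * (E + 2) + 1 := by rw [hm]; push_cast; ring
    have h2 : (3 : ℤ) * M + 1 ≤ 2 * A := by exact_mod_cast hAM
    have h3 : (1 : ℤ) ≤ m := by exact_mod_cast hm0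
    push_cast
    have h4 : (4 : ℤ) * A * (E + 2) < m := by rw [h1]; linarith
    have h5 : (0 : ℤ) < (m : ℤ) ^ 2 := by positivity
    have h6 : (4 : ℤ) * A * (E + 2) * m < m * m := by
      exact mul_lt_mul_of_pos_right h4 (by linarith)
    nlinarith [mul_le_mul_of_nonneg_right h2 h5.le]
  have hU' : ((cnt (fun p : Fin m0 × Fin (2 * m) => s p.1 + N * ((p.2 : ℕ) : ℤ)) 1 (-1) 1 k : ℕ) : ℤ)
      ≤ ((M * (3 * m ^ 2) : ℕ) : ℤ) := by exact_mod_cast hU
  have := lt_of_le_of_lt hU' (lt_of_lt_of_le hfin hL)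
  exact_mod_cast this

end Pool.Agent.X14.LOB
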