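import Pool.Agent.X297.LO.Stm

/-! Backup of part ZLO (helper14). -/

set_option autoImplicit false

namespace Pool.Agent.X14.LOB

open Pool.Agent.X297.LO

theorem pairs (L : ℕ) (t : ℤ) :
    (L : ℤ) - |t| ≤ (Nat.card {p : Fin L × Fin L // ((p.1 : ℕ) : ℤ) - ((p.2 : ℕ) : ℤ) = t} : ℤ) := by
  by_cases h : (L : ℤ) ≤ |t|
  · have : (0 : ℤ) ≤ (Nat.card {p : Fin L × Fin L // ((p.1 : ℕ) : ℤ) - ((p.2 : ℕ) : ℤ) = t} : ℤ) := by positivity
    linarith
  push Not at h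
  obtain ⟨u, hu⟩ | ⟨u, hu⟩ : (∃ u : ℕ, t = u) ∨ ∃ u : ℕ, t = -u := by
    rcases le_total 0 t with ht | ht
    · exact Or.inl ⟨t.toNat, by omega⟩
    · exact Or.inr ⟨(-t).toNat, by omega⟩
  · subst hu
    have hu2 : u < L := by rw [Nat.abs_cast] at h; exact_mod_cast h
    have hc : L - u ≤ Nat.card {p : Fin L × Fin L // ((p.1 : ℕ) : ℤ) - ((p.2 : ℕ) : ℤ) = (u : ℤ)} := by
      have h1 := Nat.card_le_card_of_injective
        (fun j : Fin (L - u) => (⟨(⟨j.1 + u, by have := j.2; omega⟩, ⟨j.1, by have := j.2; omega⟩), by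
          simp⟩ : {p : Fin L × Fin L // ((p.1 : ℕ) : ℤ) - ((p.2 : ℕ) : ℤ) = (u : ℤ)}))
        (by
          intro a b hab
          simp only [Subtype.mk.injEq, Prod.mk.injEq, Fin.mk.injEq] at hab
          exact Fin.ext hab.2)
      simpa using h1
    rw [Nat.abs_cast]
    omega
  · subst hu
    rw [abs_neg, Nat.abs_cast] at h ⊢
    have hu2 : u < L := by exact_mod_cast h
    have hc : L - u ≤ Nat.card {p : Fin L × Fin L // ((p.1 : ℕ) : ℤ) - ((p.2 : ℕ) : ℤ) = -(u : ℤ)} := by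
      have h1 := Nat.card_le_card_of_injective
        (fun j : Fin (L - u) => (⟨(⟨j.1, by have := j.2; omega⟩, ⟨j.1 + u, by have := j.2; omega⟩), by
          simp⟩ : {p : Fin L × Fin L // ((p.1 : ℕ) : ℤ) - ((p.2 : ℕ) : ℤ) = -(u : ℤ)}))
        (by
          intro a b hab
          simp only [Subtype.mk.injEq, Prod.mk.injEq, Fin.mk.injEq] at hab
          exact Fin.ext hab.1)
      simpa using h1
    omega

theorem t_ZLO : S_ZLO := by
  classical
  intro m E e he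
  have hcard : Nat.card {p : Fin (2 * m) × Fin (2 * m) × Fin (2 * m) //
      ((p.1 : ℕ) : ℤ) - ((p.2.1 : ℕ) : ℤ) + 2 * ((p.2.2 : ℕ) : ℤ) = 2 * m + e}
      = ∑ c : Fin (2 * m), Nat.card {p : Fin (2 * m) × Fin (2 * m) //
          ((p.1 : ℕ) : ℤ) - ((p.2 : ℕ) : ℤ) = 2 * m + e - 2 * ((c : ℕ) : ℤ)} := by
    rw [← Nat.card_sigma]
    refine Nat.card_congr ?_
    exact
      { toFun := fun p => ⟨p.1.2.2, ⟨(p.1.1, p.1.2.1), by have := p.2; simp only at this ⊢; linarith⟩⟩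
        invFun := fun q => ⟨(q.2.1.1, q.2.1.2, q.1), by have := q.2.2; simp only at this ⊢; linarith⟩
        left_inv := fun p => rfl
        right_inv := fun q => rfl }
  rw [hcard]
  push_cast
  have h1 : ∀ c : Fin (2 * m), (2 * m : ℤ) - E - |2 * m - 2 * ((c : ℕ) : ℤ)| ≤
      (Nat.card {p : Fin (2 * m) × Fin (2 * m) //
          ((p.1 : ℕ) : ℤ) - ((p.2 : ℕ) : ℤ) = 2 * m + e - 2 * ((c : ℕ) : ℤ)} : ℤ) := by
    intro c
    refine le_trans ?_ (pairs (2 * m) (2 * m + e - 2 * ((c : ℕ) : ℤ)))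
    have h2 : |2 * (m : ℤ) + e - 2 * ((c : ℕ) : ℤ)| ≤ |2 * m - 2 * ((c : ℕ) : ℤ)| + |e| := by
      have h3 := abs_add_le (2 * m - 2 * ((c : ℕ) : ℤ)) e
      have h4 : 2 * (m : ℤ) + e - 2 * ((c : ℕ) : ℤ) = 2 * m - 2 * ((c : ℕ) : ℤ) + e := by ring
      rw [h4]; exact h3
    push_cast
    linarith
  refine le_trans ?_ (Finset.sum_le_sum fun c _ => h1 c)
  rw [Fin.sum_univ_eq_sum_range (fun c : ℕ => (2 * m : ℤ) - E - |2 * m - 2 * (c : ℤ)|) (2 * m), two_mul,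
    Finset.sum_range_add, ← Finset.sum_add_distrib]
  have h5 : ∀ c ∈ Finset.range m, ((m + m : ℤ) - E - |m + m - 2 * (c : ℤ)|) + ((m + m : ℤ) - E - |m + m - 2 * ((m + c : ℕ) : ℤ)|)
      = 2 * m - 2 * E := by
    intro c hc
    rw [Finset.mem_range] at hc
    rw [abs_of_nonneg (by omega), abs_of_nonpos (by push_cast; omega)]
    push_cast
    ring
  have h6 := Finset.sum_congr rfl h5
  have h7 : (m : ℤ) * (2 * m - 2 * E) = ∑ c ∈ Finset.range m, (2 * (m : ℤ) - 2 * E) := by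
    rw [Finset.sum_const, Finset.card_range, nsmul_eq_mul]
  rw [← h7] at h6
  refine le_trans ?_ (le_of_eq ?_) (b := (m : ℤ) * (2 * m - 2 * E))
  · have : (0 : ℤ) ≤ m := by positivity
    have h8 : (0 : ℤ) ≤ E := by positivity
    nlinarith
  · rw [← h6]
    refine Finset.sum_congr rfl fun c _ => ?_
    push_cast
    ring_nf

end Pool.Agent.X14.LOB
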